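import Pool.Agent.Helper90.MZ.StmtsC

/-!
# MP_79eb7e_lc, full answer: module LFN (finitely many ENI classes at level zero)
-/

set_option autoImplicit false

namespace Pool.Agent.Helper90.MZ

open Pool.Agent.Helper90.TS

theorem lfn_rl0 {V G : Type} [Group G] [MulAction G V] (X : Ctx V G) (q : Ty V) :
    Rl X q ∅ q.z := ⟨eqv_refl _ _, si_empty_right⟩

/-- representatives -/
theorem lfn_rep (hU : ST_SUPU) (hE : ST_ENIU) (hR : ST_RLB) (hN : ST_NOEQ)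
    (V G : Type) [Group G] [MulAction G V] (X : Ctx V G) (b M : Set V) (c : Ty V)
    (hM : Mdl X M) (hb : b ⊆ M) (hc : ENI X c) (hs : Sup X b c) :
    ∃ q, EN0 X q ∧ q.A ⊆ M ∧ NO X q c := by
  obtain ⟨p, hp, hpM, hpf, hpc, hcp⟩ := (hU V G X).2.2.2.2.2.1 M c hc.1 (hs M hM hb)
  have hpE : ENI X p := (hE V G X c).2.2.2.1 hc p hp hpf hcp
  obtain ⟨F, hF, hpF, hFM, h⟩ := (hE V G X p).2.2.1 hpE M hM hpM
  obtain ⟨y, hy⟩ := (hR V G X p hp F hF.countable).1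
  obtain ⟨h1, h2⟩ := h y hy
  exact ⟨⟨F, p.D, y⟩, h1, hFM, (hN V G X).2.2 _ _ _ h1.1 hp hc.1 h2 hpc⟩

/-- the coded bits are recovered -/
theorem lfn_step (hA : ST_INVA) (V G : Type) [Group G] [MulAction G V] (X : Ctx V G)
    (b : Set V) (q : ℕ → Ty V) (h : ℕ → Set V) (N : (ℕ → Bool) → Set V)
    (hq : ∀ n, SR X (q n) ∧ (q n).A.Finite ∧ (h n).Finite)
    (ho : ∀ m n, ∀ σ ∈ Fx G b, NO X (mv σ (q m)) (q n) → m = n)
    (hN : ∀ x, (∀ n, h n ⊆ N x ∧ (q n).A ⊆ N x) ∧ (∀ n, x n = true → Om X (q n) (h n) (N x)) ∧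
      ∀ r : Ty V, SR X r → r.A.Finite → r.A ⊆ N x → (∀ n, x n = true → ¬ NO X r (q n)) →
        ¬ Bd X r (N x))
    (g : G) (hg : g ∈ Fx G b) (s t : ℕ → Bool) (e : tr g (N s) = N t) (n : ℕ)
    (hn : s n = true) : t n = true := by
  by_contra hcon
  obtain ⟨h1, h2, h3⟩ := hN s
  obtain ⟨h4, h5, h6⟩ := hN t
  have hb : Bd X (q n) (N s) := ⟨h n, (hq n).2.2, (h1 n).1, h2 n hn⟩
  have hb' : Bd X (mv g (q n)) (N t) := by
    rw [← e]
    exact (hA V G X g).2.2.2.2.2.2.2.1 (q n) (N s) (hq n).1.cnt hb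
  refine h6 (mv g (q n)) ((hA V G X g).2.2.1 (q n) (hq n).1) (tr_finite g (hq n).2.1) ?_ ?_ hb'
  · rw [← e]
    exact tr_mono g (h1 n).2
  · intro m hm hno
    have := ho n m g hg hno
    subst this
    exact hcon hm

theorem st_LFN (hO : ST_ORBC) (hCT : ST_CT) (hF : ST_FWB) (hE : ST_ENIU) (hU : ST_SUPU)
    (hS : ST_SRL) (hP : ST_PRIM) (hAt : ST_ATMB) (hM : ST_MDLB) (hA : ST_INVA)
    (hN : ST_NOEQ) (hR : ST_RLB) : ST_LFN := by
  intro V G _ _ X b hfew hb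
  rintro ⟨C, hC, hCo⟩
  obtain ⟨f, -, hf⟩ := hO V G X b C hb (fun n => ⟨(hC n).1.1, (hC n).1.2.1, (hC n).2⟩) hCo
  obtain ⟨M0, hM0, hbM0, -⟩ := (hM V G X).2.1 ∅ ∅ b (Set.empty_subset _) hb.countable
    Set.countable_empty si_empty_right
  obtain ⟨Mb, -, hMb⟩ := hP V G X b M0 hM0 hbM0
  have hrep : ∀ n, ∃ q, EN0 X q ∧ q.A ⊆ Mb ∧ NO X q (C (f n)) := fun n =>
    lfn_rep hU hE hR hN V G X b Mb (C (f n)) hMb.1 hMb.2.1 (hC (f n)).1 (hC (f n)).2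
  choose q hq hqM hqC using hrep
  -- orbits
  have ho : ∀ m n, ∀ σ ∈ Fx G b, NO X (mv σ (q m)) (q n) → m = n := by
    intro m n σ hσ h
    have i1 : NO X (mv σ (q m)) (mv σ (C (f m))) := (hA V G X σ).2.2.2.1 _ _ (hqC m)
    have i2 := (hN V G X).2.1 _ _ i1
    have s1 := (hA V G X σ).2.2.1 _ (hC (f m)).1.1
    have s2 := (hA V G X σ).2.2.1 _ (hq m).1
    have i3 := (hN V G X).2.2 _ _ _ s1 s2 (hq n).1 i2 h
    exact hf m n σ hσ ((hN V G X).2.2 _ _ _ s1 (hq n).1 (hC (f n)).1.1 i3 (hqC n))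
  have hfin : ∀ n, (b ∪ (q n).A).Finite := fun n => hb.union (hq n).2.1
  have hsub : ∀ n, b ∪ (q n).A ⊆ Mb := fun n => Set.union_subset hMb.2.1 (hqM n)
  have hnis : ∀ n y, Rl X (q n) (b ∪ (q n).A) y → ¬ Isl X (b ∪ (q n).A) y := by
    intro n y hy hi
    have h1 := (hE V G X (q n)).1 (hq n).1 ∅ (b ∪ (q n).A) (q n).z y (Set.empty_subset _)
      (hfin n).countable (lfn_rl0 X (q n)) hy (by
        rw [Set.union_empty]
        exact (hq n).2.2)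
    rw [Set.union_eq_self_of_subset_left Set.subset_union_right] at h1
    exact h1 hi
  have hom : ∀ n, Om X (q n) (b ∪ (q n).A) Mb := by
    intro n y hy hr
    have h1 := (hAt V G X b Mb).1 hMb (q n).A (hqM n) (hq n).2.1
    exact hnis n y hr (h1.2.2 1 y hy)
  have hrl : ∀ n y, Rl X (q n) (b ∪ (q n).A) y → Rl X (q n) Mb y := fun n =>
    hS V G X (q n) (b ∪ (q n).A) Mb (hq n).1 hMb.1 (hqM n) (hsub n) (hom n)
  -- coding
  have hct : ∀ x : ℕ → Bool, ∃ N, Mdl X N ∧ Mb ⊆ N ∧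
      (∀ n, x n = true → Om X (q n) (b ∪ (q n).A) N) ∧
      ∀ r : Ty V, SR X r → r.A.Finite → r.A ⊆ N → (∀ n, x n = true → ¬ NO X r (q n)) →
        ¬ Bd X r N := by
    intro x
    obtain ⟨N, h1, h2, h3, h4⟩ := hCT V G X {n // x n = true} (fun i => q i)
      (fun i => b ∪ (q i).A) Mb hMb.1.1 (fun i => ⟨(hq i).1, Set.subset_union_right, hsub i,
        hnis i, hrl i⟩)
    exact ⟨N, h1, h2, fun n hn => h3 ⟨n, hn⟩, fun r r1 r2 r3 r4 =>
      h4 r r1 r2 r3 (fun i => r4 i.1 i.2)⟩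
  choose N hN1 hN2 hN3 hN4 using hct
  refine hF V G X b hfew hb ⟨N, fun s => ⟨hN1 s, hMb.2.1.trans (hN2 s)⟩, ?_⟩
  rintro s t ⟨g, hg, e⟩
  have key : ∀ (g : G), g ∈ Fx G b → ∀ s t : ℕ → Bool, tr g (N s) = N t → ∀ n, s n = true →
      t n = true := fun g hg s t e n hn =>
    lfn_step hA V G X b q (fun n => b ∪ (q n).A) N
      (fun n => ⟨(hq n).1, (hq n).2.1, hfin n⟩) ho
      (fun x => ⟨fun n => ⟨(hsub n).trans (hN2 x), (hqM n).trans (hN2 x)⟩, hN3 x, hN4 x⟩)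
      g hg s t e n hn
  have e' : tr g⁻¹ (N t) = N s := by
    rw [← e, tr_inv_tr]
  funext n
  have k1 := key g hg s t e n
  have k2 := key g⁻¹ (inv_mem hg) t s e' n
  cases h1 : s n <;> cases h2 : t n
  · rfl
  · rw [k2 h2] at h1
    exact absurd h1 (by decide)
  · rw [k1 h1] at h2
    exact absurd h2 (by decide)
  · rfl

end Pool.Agent.Helper90.MZ
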