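import Pool.Agent.Helper90.MZ.StmtsC

/-!
# MP_79eb7e_lc, full answer: module NN (active types come from the empty set)
-/

set_option autoImplicit false

namespace Pool.Agent.Helper90.MZ

open Pool.Agent.Helper90.TS

/-- the translates of `q` -/
theorem nn_fam (hPR : ST_PRB) (hU : ST_SUPU) (hA : ST_INVA) (V G : Type) [Group G]
    [MulAction G V] (X : Ctx V G) (b T : Set V) (q : Ty V) (σ : ℕ → G) (hb : b.Countable)
    (hT : T.Countable) (hq : ENI X q) (hqT : q.A ⊆ T) (hs : ¬ Sup X b q)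
    (hσ : ∀ i, σ i ∈ Fx G b) (hI : Ind X b (fun i => tr (σ i) T)) :
    (∀ i, ¬ Sup X b (mv (σ i) q)) ∧ (∀ i, ENI X (mv (σ i) q) ∧ ¬ Sup X ∅ (mv (σ i) q)) ∧
      ∀ i j, i ≠ j → ¬ NO X (mv (σ i) q) (mv (σ j) q) := by
  have h1 : ∀ i, ¬ Sup X b (mv (σ i) q) := by
    intro i h
    have h2 := (hA V G X (σ i)⁻¹).2.2.2.2.2.1 b _ h
    rw [(hA V G X (σ i)).1 q, tr_fx (inv_mem (hσ i))] at h2
    exact hs h2
  refine ⟨h1, fun i => ⟨(hA V G X (σ i)).2.2.2.2.2.2.2.2.1 q hq, fun h =>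
    h1 i ((hU V G X).2.1 ∅ b _ (Set.empty_subset _) h)⟩, ?_⟩
  intro i j hij h
  have h3 := hI {i} {j} (by
    rw [Set.disjoint_singleton]
    exact hij)
  rw [Set.biUnion_singleton, Set.biUnion_singleton] at h3
  have h4 : SI X b (tr (σ i) q.A) (tr (σ j) q.A) :=
    si_left (tr_mono _ hqT) (si_right hb (tr_countable _ hT) (tr_countable _ hT)
      (tr_mono _ hqT) h3)
  exact (hPR V G X b hb).2.2.2.1 _ _ ((hA V G X (σ i)).2.2.1 q hq.1)
    ((hA V G X (σ j)).2.2.1 q hq.1) h (h1 i) h4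

/-- no base of a translate is independent from `b` -/
theorem nn_nb (hO : ST_ORT) (hPR : ST_PRB) (hR : ST_RLB) (hA : ST_INVA) (hB : ST_INVB)
    (hN : ST_NOEQ) (V G : Type) [Group G] [MulAction G V] (X : Ctx V G) (b : Set V)
    (p q : Ty V) (z : Fin 1 → V) (σ : G) (n : ℕ) (f : Fin n → V) (hb : b.Finite)
    (hp : SR X p) (hpb : p.A ⊆ b) (hps : ¬ Sup X ∅ p) (hz : Rl X p b z)
    (hq : SR X q) (hf : Set.range f = q.A) (hD : Dom X b (Set.range z) f) (hσ : σ ∈ Fx G b)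
    (hs : ¬ Sup X b (mv σ q)) : NB X ∅ b (mv σ q) := by
  intro q' hq' hq'f hno hsi
  have e0 : p.A ∪ b = b := Set.union_eq_self_of_subset_left hpb
  have hbc := hb.countable
  have hfc : q'.A.Countable := hq'f.countable
  -- the translate of `z` realizes `p|b`
  have h1 : Rl X p b (σ • z) := (hR V G X p hp b hbc).2.2.2.2.2.1 z (σ • z) hz
    ⟨σ, by rwa [e0], rfl⟩
  have h2 : Rl X p (b ∪ q'.A) (σ • z) := hO V G X ∅ b q'.A p (σ • z) hp (Set.empty_subset _)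
    hpb hbc hps hfc hsi h1
  have h3 := (hR V G X p hp b hbc).2.2.2.2.1 (σ • z) q'.A hfc h2
  rw [e0] at h3
  have h4 : SI X b q'.A (Set.range (σ • z)) := si_symm hbc (Set.countable_range _) hfc h3
  have h5 := (hB V G X σ).2.2.1 b (Set.range z) (Fin n) f hbc (Set.countable_range _) hD
  rw [tr_fx hσ, tr_range] at h5
  obtain ⟨D, -, -, h6⟩ := h5
  have h7 := (h6 q'.A hfc h4).1
  have h8 : SI X b q'.A (Set.range (σ • f)) := si_right hbc hfc
    ((Set.countable_range _).union (Set.countable_range _)) Set.subset_union_right h7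
  have h9 : SI X b (Set.range (σ • f)) q'.A := si_symm hbc hfc (Set.countable_range _) h8
  rw [← tr_range, hf] at h9
  exact (hPR V G X b hbc).2.2.2.1 (mv σ q) q' ((hA V G X σ).2.2.1 q hq) hq'
    ((hN V G X).2.1 _ _ hno) hs h9

/-- the case of finite bases -/
theorem nn_fin (hAC : ST_ACI) (hO : ST_ORT) (hFI : ST_FIN) (hW : ST_WT) (hPR : ST_PRB)
    (hFD : ST_FDOM) (hP : ST_PRIM) (hM : ST_MDLB) (hR : ST_RLB) (hU : ST_SUPU)
    (hE : ST_ENIU) (hN : ST_NOEQ) (hA : ST_INVA) (hB : ST_INVB) (hI : ST_IND)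
    (V G : Type) [Group G] [MulAction G V] (X : Ctx V G) (p : Ty V) (hfew : Few X)
    (hp : SR X p) (hpf : p.A.Finite) (hact : Act X p) : Sup X ∅ p := by
  by_contra hps
  obtain ⟨M, hMM, hpM, -⟩ := (hM V G X).2.1 ∅ ∅ p.A (Set.empty_subset _) hpf.countable
    Set.countable_empty si_empty_right
  obtain ⟨z, hz⟩ := (hR V G X p hp M hMM.1).1
  obtain ⟨N0, hN0, hN0s, -⟩ := (hM V G X).2.1 ∅ ∅ (M ∪ Set.range z) (Set.empty_subset _)
    (hMM.1.union (Set.countable_range _)) Set.countable_empty si_empty_right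
  obtain ⟨N, -, hNa⟩ := hP V G X (M ∪ Set.range z) N0 hN0 hN0s
  obtain ⟨q0, hq0, hq0N, hq0M⟩ := (hAC V G X p hp hact).2.2 hfew M N z hMM hpM hz hNa
  obtain ⟨q, hq, hqN, hqf, hqq0, hq0q⟩ := (hU V G X).2.2.2.2.2.1 N q0 hq0.1 hq0N
  have hqE : ENI X q := (hE V G X q0).2.2.2.1 hq0 q hq hqf hq0q
  have hqM : ¬ Sp X M q := fun h => hq0M ((hU V G X).2.2.1 M q q0 hq hq0.1 hqq0 h)
  obtain ⟨n, f, -, hf⟩ := hqf.fin_param
  have hfi : Isl X (M ∪ Set.range z) f := hNa.2.2 n f (by rw [hf]; exact hqN)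
  obtain ⟨b0, hb0M, hb0, hb1⟩ := hFD V G X M (Set.range z) hMM (Set.finite_range z) (Fin n) f hfi
  obtain ⟨b, hbdef⟩ : ∃ b, b = b0 ∪ p.A := ⟨_, rfl⟩
  have hbf : b.Finite := by
    rw [hbdef]
    exact hb0.union hpf
  have hbM : b ⊆ M := by
    rw [hbdef]
    exact Set.union_subset hb0M hpM
  have hpb : p.A ⊆ b := by
    rw [hbdef]
    exact Set.subset_union_right
  have hD : Dom X b (Set.range z) f := (hb1 b (by
    rw [hbdef]
    exact Set.subset_union_left) hbM).1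
  have hTc : (Set.range z ∪ q.A).Countable := (Set.countable_range z).union hqf.countable
  obtain ⟨σ, hσ, hσI, -⟩ := (hI V G X b hbf.countable).2.2.2.2.2.1 (fun _ => Set.range z ∪ q.A) ∅
    (fun _ => hTc) Set.countable_empty
  have hsq : ¬ Sup X b q := fun h => hqM (h M hMM hbM)
  obtain ⟨h1, h2, h3⟩ := nn_fam hPR hU hA V G X b (Set.range z ∪ q.A) q σ hbf.countable hTc hqE
    Set.subset_union_right hsq hσ hσI
  have hzb : Rl X p b z := (hR V G X p hp M hMM.1).2.2.1 z hz b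
    (hbM.trans Set.subset_union_right)
  have h4 : ∀ i, NB X ∅ b (mv (σ i) q) := fun i =>
    nn_nb hO hPR hR hA hB hN V G X b p q z (σ i) n f hbf hp hpb hps hzb hq hf hD (hσ i) (h1 i)
  obtain ⟨w, hw⟩ := hW V G X ∅ b Set.countable_empty hbf
  obtain ⟨K, hK⟩ := hFI V G X ∅ hfew Set.finite_empty
  have h5 := hK b w hbf.countable hw (K * w + 1) (fun i => mv (σ i) q)
    ⟨fun i => h2 i, fun i j hij => h3 i j (fun h => hij (Fin.ext h))⟩ (fun i => h4 i)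
  omega

theorem st_NN (hAC : ST_ACI) (hO : ST_ORT) (hFI : ST_FIN) (hW : ST_WT) (hPR : ST_PRB)
    (hFD : ST_FDOM) (hP : ST_PRIM) (hM : ST_MDLB) (hR : ST_RLB) (hSF : ST_SRFIN) (hU : ST_SUPU)
    (hE : ST_ENIU) (hN : ST_NOEQ) (hA : ST_INVA) (hB : ST_INVB) (hI : ST_IND) : ST_NN := by
  intro V G _ _ X p hfew hp hact
  obtain ⟨A0, hA0, hA0f, h⟩ := hSF V G X p hp
  obtain ⟨h1, h2, h3, -⟩ := h A0 le_rfl hA0
  have h4 : Act X ⟨A0, p.D, p.z⟩ := (hAC V G X p hp hact).1 _ h1 h3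
  have h5 := nn_fin hAC hO hFI hW hPR hFD hP hM hR hU hE hN hA hB hI V G X ⟨A0, p.D, p.z⟩ hfew
    h1 hA0f h4
  exact (hU V G X).2.2.2.1 ∅ _ p h1 hp h2 h5

end Pool.Agent.Helper90.MZ
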